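import Mathlib

open Set Topology TopologicalSpace

namespace H91JT

section comp

lemma isOpen_comp {Y : Type*} [TopologicalSpace Y] {ι : Type*} [Finite ι]
    (W : ι → Set Y) (hW : ∀ i, IsPreconnected (W i))
    (h : ∀ Z : Set Y, IsClopen Z → Z.Nonempty → ∃ i, (W i ∩ Z).Nonempty) (p : Y) :
    IsOpen (connectedComponent p) := by
  classical
  have hfin : Finite (ConnectedComponents Y) := by
    by_contra hinf
    rw [not_finite_iff_infinite] at hinf
    obtain ⟨U, h1, h2, h3, -⟩ :=
      ConnectedComponents.exists_fun_isClopen_of_infinite Y (Nat.card ι + 1) (Nat.succ_pos _)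
    choose f hf using fun j => h (U j) (h1 j) (h2 j)
    have hsub : ∀ j, W (f j) ⊆ U j := fun j => (hW (f j)).subset_isClopen (h1 j) (hf j)
    have hinj : Function.Injective f := by
      intro i j hij
      by_contra hne
      have hd := h3 hne
      obtain ⟨x, hx, -⟩ := hf i
      exact Set.disjoint_left.mp hd (hsub i hx) (hsub j (hij ▸ hx))
    have := Nat.card_le_card_of_injective f hinj
    simp at this
  have : DiscreteTopology (ConnectedComponents Y) := inferInstance
  exact ConnectedComponents.discreteTopology_iff.mp this p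

variable {S : Type*} [TopologicalSpace S]

lemma mem_interior_comp {Y : Set S} {p : S} (hp : p ∈ interior Y) {ι : Type*} [Finite ι]
    (W : ι → Set S) (hWY : ∀ i, W i ⊆ Y) (hW : ∀ i, IsPreconnected (W i))
    (h : ∀ G F : Set S, IsOpen G → IsClosed F → G ∩ Y = F ∩ Y → (G ∩ Y).Nonempty →
      ∃ i, (W i ∩ G).Nonempty) :
    p ∈ interior (connectedComponentIn Y p) := by
  have hpY : p ∈ Y := interior_subset hp
  have hopen : IsOpen (connectedComponent (⟨p, hpY⟩ : Y)) := by
    refine isOpen_comp (ι := ι) (fun i => (Subtype.val ⁻¹' (W i) : Set Y)) ?_ ?_ _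
    · intro i
      rw [← Topology.IsInducing.subtypeVal.isPreconnected_image]
      rw [Subtype.image_preimage_coe, Set.inter_eq_self_of_subset_right (hWY i)]
      exact hW i
    · intro Z hZ hZn
      obtain ⟨G, hG, hGZ⟩ := isOpen_induced_iff.mp hZ.isOpen
      obtain ⟨F, hF, hFZ⟩ := isClosed_induced_iff.mp hZ.isClosed
      have hGF : G ∩ Y = F ∩ Y := by
        ext x
        constructor
        · rintro ⟨hx, hxY⟩
          have : (⟨x, hxY⟩ : Y) ∈ Z := by rw [← hGZ]; exact hx
          rw [← hFZ] at this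
          exact ⟨this, hxY⟩
        · rintro ⟨hx, hxY⟩
          have : (⟨x, hxY⟩ : Y) ∈ Z := by rw [← hFZ]; exact hx
          rw [← hGZ] at this
          exact ⟨this, hxY⟩
      obtain ⟨z, hz⟩ := hZn
      have hz' : (z : S) ∈ G := by rw [← hGZ] at hz; exact hz
      obtain ⟨i, x, hxW, hxG⟩ := h G F hG hF hGF ⟨z, hz', z.2⟩
      refine ⟨i, ⟨x, hWY i hxW⟩, hxW, ?_⟩
      rw [← hGZ]; exact hxG
  obtain ⟨O, hO, hOe⟩ := isOpen_induced_iff.mp hopen
  rw [connectedComponentIn_eq_image hpY, mem_interior]
  refine ⟨O ∩ interior Y, ?_, hO.inter isOpen_interior, ?_, hp⟩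
  · rintro x ⟨hxO, hxY⟩
    have : (⟨x, interior_subset hxY⟩ : Y) ∈ connectedComponent (⟨p, hpY⟩ : Y) := by
      rw [← hOe]; exact hxO
    exact ⟨_, this, rfl⟩
  · have : (⟨p, hpY⟩ : Y) ∈ connectedComponent (⟨p, hpY⟩ : Y) := mem_connectedComponent
    rw [← hOe] at this
    exact this

lemma isClosed_comp {Y : Set S} (hY : IsClosed Y) (p : S) :
    IsClosed (connectedComponentIn Y p) := by
  by_cases hp : p ∈ Y
  · have h1 : IsPreconnected (closure (connectedComponentIn Y p)) :=
      isPreconnected_connectedComponentIn.closure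
    have h2 : closure (connectedComponentIn Y p) ⊆ Y :=
      closure_minimal (connectedComponentIn_subset Y p) hY
    have h3 := h1.subset_connectedComponentIn (subset_closure (mem_connectedComponentIn hp)) h2
    exact isClosed_of_closure_subset h3
  · rw [connectedComponentIn_eq_empty hp]
    exact isClosed_empty

end comp

variable {S : Type*} [TopologicalSpace S]

/-- F. B. Jones's set function: the complement of the set of all points having a
neighbourhood which is a subcontinuum disjoint from `A`. -/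
def jonesT (A : Set S) : Set S :=
  {p | ∃ W : Set S, IsClosed W ∧ IsConnected W ∧ p ∈ interior W ∧ Disjoint W A}ᶜ

lemma notMem_jonesT {A : Set S} {p : S} :
    p ∉ jonesT A ↔ ∃ W : Set S, IsClosed W ∧ IsConnected W ∧ p ∈ interior W ∧ Disjoint W A := by
  simp [jonesT]

lemma isClosed_jonesT (A : Set S) : IsClosed (jonesT A) := by
  rw [jonesT, isClosed_compl_iff]
  rw [isOpen_iff_mem_nhds]
  rintro p ⟨W, hW, hWc, hp, hd⟩
  filter_upwards [isOpen_interior.mem_nhds hp] with q hq
  exact ⟨W, hW, hWc, hq, hd⟩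

lemma subset_jonesT (A : Set S) : A ⊆ jonesT A := by
  intro p hp hn
  obtain ⟨W, -, -, hpW, hd⟩ := hn
  exact Set.disjoint_left.mp hd (interior_subset hpW) hp

lemma jonesT_mono {A B : Set S} (h : A ⊆ B) : jonesT A ⊆ jonesT B := by
  intro p hp hn
  obtain ⟨W, h1, h2, h3, h4⟩ := hn
  exact hp ⟨W, h1, h2, h3, h4.mono_right h⟩

lemma jonesT_empty [ConnectedSpace S] : jonesT (∅ : Set S) = ∅ := by
  ext p
  simp only [mem_empty_iff_false, iff_false]
  rw [notMem_jonesT]
  exact ⟨univ, isClosed_univ, isConnected_univ, by simp, by simp⟩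

lemma disjoint_interior_jonesT {A W : Set S} (hW : IsClosed W) (hWc : IsConnected W)
    (h : Disjoint W A) : Disjoint (interior W) (jonesT A) := by
  rw [Set.disjoint_left]
  intro p hp hpT
  exact hpT ⟨W, hW, hWc, hp, h⟩

/-- Splitting: if `T(A)` is covered by two disjoint closed sets `P`, `Q`, then the part in `P` is
contained in `T(A ∩ P)`. -/
lemma splitting [CompactSpace S] [T2Space S] [ConnectedSpace S] {A P Q : Set S}
    (hP : IsClosed P) (hQ : IsClosed Q)
    (hPQ : Disjoint P Q) (hT : jonesT A ⊆ P ∪ Q) : jonesT A ∩ P ⊆ jonesT (A ∩ P) := by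
  classical
  rintro p ⟨hpT, hpP⟩
  by_contra hp
  rw [notMem_jonesT] at hp
  obtain ⟨W, hWcl, hWco, hpW, hWd⟩ := hp
  -- an open set around `P` whose closure misses `Q`
  obtain ⟨V, hVo, hPV, hVQ⟩ : ∃ V : Set S, IsOpen V ∧ P ⊆ V ∧ Disjoint (closure V) Q := by
    obtain ⟨V, V', hVo, hV'o, hPV, hQV', hd⟩ := normal_separation hP hQ hPQ
    refine ⟨V, hVo, hPV, ?_⟩
    have : Disjoint (closure V) V' := hd.closure_left hV'o
    exact this.mono_right hQV'
  have hAPQ : A ⊆ P ∪ Q := (subset_jonesT A).trans hT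
  by_cases hWV : W ⊆ V
  · apply hpT
    refine ⟨W, hWcl, hWco, hpW, ?_⟩
    rw [Set.disjoint_left]
    intro x hxW hxA
    rcases hAPQ hxA with hx | hx
    · exact Set.disjoint_left.mp hWd hxW ⟨hxA, hx⟩
    · exact Set.disjoint_left.mp hVQ (subset_closure (hWV hxW)) hx
  -- cover the frontier
  have hfr : ∀ q ∈ closure V \ V, ∃ K : Set S, IsClosed K ∧ IsConnected K ∧ q ∈ interior K ∧
      Disjoint K A := by
    intro q hq
    rw [← notMem_jonesT]
    intro hqT
    rcases hT hqT with h | h
    · exact hq.2 (hPV h)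
    · exact Set.disjoint_left.mp hVQ hq.1 h
  choose! K hKcl hKco hKi hKd using hfr
  have hcomp : IsCompact (closure V \ V) := (isClosed_closure.isCompact).diff hVo
  obtain ⟨t, htc⟩ := hcomp.elim_nhds_subcover' (fun q _ => interior (K q))
    (fun q hq => isOpen_interior.mem_nhds (hKi q hq))
  -- the compact set
  set Y : Set S := (W ∩ closure V) ∪ ⋃ q ∈ t, K q with hY
  have hYcl : IsClosed Y := by
    refine (hWcl.inter isClosed_closure).union ?_
    exact t.finite_toSet.isClosed_biUnion (fun q _ => hKcl q q.2)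
  have hpY : p ∈ interior Y := by
    rw [mem_interior]
    refine ⟨interior W ∩ V, ?_, isOpen_interior.inter hVo, hpW, hPV hpP⟩
    rintro x ⟨hx, hxV⟩
    exact Or.inl ⟨interior_subset hx, subset_closure hxV⟩
  have hYA : Disjoint Y A := by
    rw [Set.disjoint_left]
    rintro x (⟨hxW, hxV⟩ | hx) hxA
    · rcases hAPQ hxA with h | h
      · exact Set.disjoint_left.mp hWd hxW ⟨hxA, h⟩
      · exact Set.disjoint_left.mp hVQ hxV h
    · simp only [mem_iUnion, exists_prop] at hx
      obtain ⟨q, hq, hxq⟩ := hx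
      exact Set.disjoint_left.mp (hKd q q.2) hxq hxA
  have hC : p ∈ interior (connectedComponentIn Y p) := by
    refine mem_interior_comp (ι := t) hpY (fun q => K q.1) ?_ ?_ ?_
    · rintro ⟨q, hq⟩ x hx
      right
      simp only [mem_iUnion, exists_prop]
      exact ⟨q, hq, hx⟩
    · rintro ⟨q, hq⟩
      exact (hKco q q.2).isPreconnected
    · intro G F hG hF hGF hne
      by_contra hcon
      push Not at hcon
      -- `G ∩ Y` is a clopen subset of `W` contained in `V`
      have hsub : ∀ x ∈ G ∩ Y, x ∈ W ∩ V := by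
        rintro x ⟨hxG, hxY⟩
        have hxn : x ∉ ⋃ q ∈ t, K q := by
          intro hx
          simp only [mem_iUnion, exists_prop] at hx
          obtain ⟨q, hq, hxq⟩ := hx
          have := hcon ⟨q, hq⟩
          exact (Set.eq_empty_iff_forall_notMem.mp this x) ⟨hxq, hxG⟩
        rcases hxY with ⟨hxW, hxV⟩ | hx
        · refine ⟨hxW, ?_⟩
          by_contra hxV'
          have := htc ⟨hxV, hxV'⟩
          simp only [mem_iUnion, exists_prop] at this
          obtain ⟨q, hq, hxq⟩ := this
          apply hxn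
          simp only [mem_iUnion, exists_prop]
          exact ⟨q, hq, interior_subset hxq⟩
        · exact absurd hx hxn
      have h1 : G ∩ Y = W ∩ (G ∩ V) := by
        ext x
        constructor
        · intro hx
          exact ⟨(hsub x hx).1, hx.1, (hsub x hx).2⟩
        · rintro ⟨hxW, hxG, hxV⟩
          exact ⟨hxG, Or.inl ⟨hxW, subset_closure hxV⟩⟩
      have h2 : G ∩ Y = W ∩ (F ∩ Y) := by
        rw [← hGF]
        ext x
        constructor
        · intro hx
          exact ⟨(hsub x hx).1, hx⟩
        · rintro ⟨-, hx⟩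
          exact hx
      -- connectedness of `W`
      have hWpre := hWco.isPreconnected
      apply hWV
      intro x hxW
      by_contra hxV
      have := hWpre (G ∩ V) (F ∩ Y)ᶜ (hG.inter hVo) (hF.inter hYcl).isOpen_compl ?_ ?_ ?_
      · obtain ⟨z, hzW, hz1, hz2⟩ := this
        have hz3 : z ∈ G ∩ Y := by rw [h1]; exact ⟨hzW, hz1⟩
        rw [h2] at hz3
        exact hz2 hz3.2
      · intro z hz
        by_cases hz' : z ∈ F ∩ Y
        · left
          have : z ∈ G ∩ Y := by rw [h2]; exact ⟨hz, hz'⟩
          rw [h1] at this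
          exact this.2
        · right; exact hz'
      · obtain ⟨z, hz⟩ := hne
        rw [h1] at hz
        exact ⟨z, hz⟩
      · refine ⟨x, hxW, ?_⟩
        intro hx
        have : x ∈ G ∩ Y := by rw [h2]; exact ⟨hxW, hx⟩
        exact hxV (hsub x this).2
  apply hpT
  refine ⟨connectedComponentIn Y p, isClosed_comp hYcl p, ?_, hC, ?_⟩
  · exact isConnected_connectedComponentIn_iff.mpr (interior_subset hpY)
  · exact hYA.mono_left (connectedComponentIn_subset Y p)

end H91JT
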